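import Pool.Agent.Results.MP_cc0c1a_nt.EveryProgression
import Pool.Agent.V1121.PG.Dens

set_option autoImplicit false
set_option maxHeartbeats 4000000

/-! # MP_cc0c1a_nt: exceptional numbers have no additive structure

`conf β` is the base 6 expansion of the number `β ≥ 0`; the finite configurations are the `conf β` with
`β ≥ 0` in `ℤ[1/6]`. Let `Exceptional J L β` mean that the orbit of `conf β` shows some word of length at
most `L` at some position of `J` only finitely many times (if the orbit of `conf β` is not dense, this is the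
case for some one-element set `J` and some `L`). We prove that large finite sets of exceptional numbers have few
additive quadruples: for all `L`, `m` and `η > 0` there is `N₀` such that for every set `J` of at most `m`
positions and every set `B` of `N ≥ N₀` real numbers which are all exceptional for `J`, `L` the equation
`a + b = c + d` has less than `η N ^ 3` solutions in `B`. In particular in every set `A` of
numbers with `|A + A| ≤ K |A|` and `|A| ≥ N₁(L, m, K, δ)` at most `δ |A|` numbers are exceptional. The starting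
result `EveryProgression` is the case of (polynomial) progressions.
-/

open Filter
open scoped Pointwise

namespace Pool.Agent.Results.MP_cc0c1a_nt.AdditiveEnergy

open Pool.Agent.H429R2.Auto

/-- the configuration given by the base 6 expansion of `β ≥ 0` -/
noncomputable def conf (β : ℝ) : ℤ → Fin 6 := fun i => ⟨⌊(6 : ℝ) ^ i * β⌋₊ % 6, Nat.mod_lt _ (by norm_num)⟩

/-- The configuration `x` shows the word `w` starting at position `j`. -/
def Shows (x : ℤ → Fin 6) (w : List (Fin 6)) (j : ℤ) : Prop :=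
  ∀ (i : ℕ) (h : i < w.length), x (j + i) = w[i]

/-- `β ≥ 0` and some word of length at most `L` is shown at some position of `J` by only finitely many of the
configurations `F^n (conf β)`. -/
def Exceptional (J : Finset ℤ) (L : ℕ) (β : ℝ) : Prop :=
  0 ≤ β ∧ ∃ j ∈ J, ∃ w : List (Fin 6), w.length ≤ L ∧ {n : ℕ | Shows (F^[n] (conf β)) w j}.Finite

lemma rep_conf (β : ℝ) : Rep (conf β) β := fun _ => rfl

open Classical in
lemma ap (L m : ℕ) (δ : ℝ) (hδ : 0 < δ) : ∃ N : ℕ, 1 ≤ N ∧
    ∀ Z ∈ {Z : Set ℝ | ∃ J : Finset ℤ, J.card ≤ m ∧ Z = {β | Exceptional J L β}}, ∀ x θ : ℝ, θ ≠ 0 →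
      (((Finset.range N).filter (fun j : ℕ => x + j • θ ∈ Z)).card : ℝ) ≤ δ * N := by
  obtain ⟨N₀, h⟩ := Pool.Agent.Results.MP_cc0c1a_nt.EveryProgression.result L 1 m δ hδ
  refine ⟨max N₀ 1, le_max_right _ _, ?_⟩
  rintro Z ⟨J, hJ, rfl⟩ x θ hθ
  have hdeg : (Polynomial.C θ * Polynomial.X + Polynomial.C x : Polynomial ℝ).natDegree = 1 :=
    Polynomial.natDegree_linear hθ
  have h1 := h J (Polynomial.C θ * Polynomial.X + Polynomial.C x) hJ hdeg.ge hdeg.le (max N₀ 1)
    (le_max_left _ _)
  refine le_trans ?_ h1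
  have h2 : ((Finset.range (max N₀ 1)).filter (fun j : ℕ => x + j • θ ∈ {β | Exceptional J L β})).card ≤
      ((Finset.range (max N₀ 1)).filter (fun l : ℕ => ∃ x_1 : Conf,
        0 ≤ (Polynomial.C θ * Polynomial.X + Polynomial.C x : Polynomial ℝ).eval (l : ℝ) ∧
        Rep x_1 ((Polynomial.C θ * Polynomial.X + Polynomial.C x : Polynomial ℝ).eval (l : ℝ)) ∧
        ∃ j ∈ J, ∃ w : List (Fin 6), w.length ≤ L ∧
          ¬ ∃ᶠ n : ℕ in atTop,
            Pool.Agent.Results.MP_cc0c1a_nt.EveryProgression.Shows (F^[n] x_1) w j)).card := by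
    apply Finset.card_le_card
    intro l hl
    rw [Finset.mem_filter] at hl ⊢
    obtain ⟨hl1, hl2, j, hj, w, hw, hfin⟩ := hl
    have e1 : (Polynomial.C θ * Polynomial.X + Polynomial.C x : Polynomial ℝ).eval (l : ℝ) = x + l • θ := by
      simp only [Polynomial.eval_add, Polynomial.eval_mul, Polynomial.eval_C, Polynomial.eval_X,
        nsmul_eq_mul]
      ring
    refine ⟨hl1, conf (x + l • θ), ?_, ?_, j, hj, w, hw, ?_⟩
    · rw [e1]; exact hl2
    · rw [e1]; exact rep_conf _
    · intro hfr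
      exact (Nat.frequently_atTop_iff_infinite.1 hfr) hfin
  exact_mod_cast h2

/-- Large finite sets of exceptional numbers have small additive energy. -/
theorem energy (L m : ℕ) (η : ℝ) (hη : 0 < η) : ∃ N₀ : ℕ, ∀ J : Finset ℤ, J.card ≤ m →
    ∀ B : Finset ℝ, (∀ β ∈ B, Exceptional J L β) → N₀ ≤ B.card →
      ((B.addEnergy B : ℕ) : ℝ) < η * (B.card : ℝ) ^ 3 := by
  obtain ⟨N₁, h⟩ := Pool.Agent.V1121.PG.energy Pool.Agent.Y56.LW.real_tf _ (ap L m) η hη
  exact ⟨N₁, fun J hJ B hB hN => h _ ⟨J, hJ, rfl⟩ B hB hN⟩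

open Classical in
/-- (1) For all `L`, `m` and `η > 0` there is `N₀` such that for every set `J` of at most `m` positions every set
`B` of `N ≥ N₀` exceptional numbers has less than `η N ^ 3` additive quadruples
`a + b = c + d` (`Finset.addEnergy` is the number of these quadruples). (2) For all `L`, `m`, `K` and `δ > 0`
there is `N₀` such that for every set `J` of at most `m` positions every finite set `A` of at least `N₀`
real numbers with `|A + A| ≤ K |A|` contains at most `δ |A|` exceptional numbers. -/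
theorem result :
    (∀ (L m : ℕ) (η : ℝ), 0 < η → ∃ N₀ : ℕ, ∀ J : Finset ℤ, J.card ≤ m →
      ∀ B : Finset ℝ, (∀ β ∈ B, Exceptional J L β) → N₀ ≤ B.card →
        ((Finset.addEnergy B B : ℕ) : ℝ) < η * (B.card : ℝ) ^ 3) ∧
    (∀ (L m : ℕ) (K δ : ℝ), 0 < δ → ∃ N₀ : ℕ, ∀ J : Finset ℤ, J.card ≤ m →
      ∀ A : Finset ℝ, N₀ ≤ A.card → ((A + A).card : ℝ) ≤ K * A.card →
        ((A.filter (fun β => Exceptional J L β)).card : ℝ) ≤ δ * A.card) := by
  refine ⟨energy, ?_⟩
  intro L m K δ hδ
  set K' : ℝ := max K 1 with hK'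
  have hK'1 : 1 ≤ K' := le_max_right _ _
  obtain ⟨N₁, h⟩ := energy L m (δ / K') (by positivity)
  refine ⟨max 1 ⌈(N₁ : ℝ) / δ⌉₊, ?_⟩
  intro J hJ A hA hAA
  by_contra hcon
  push Not at hcon
  set B := A.filter (fun β => Exceptional J L β) with hB
  have hA1 : 1 ≤ A.card := (le_max_left _ _).trans hA
  have hAr : (1:ℝ) ≤ A.card := by exact_mod_cast hA1
  have hA2 : (N₁ : ℝ) / δ ≤ A.card := by
    have h1 : (⌈(N₁ : ℝ) / δ⌉₊ : ℝ) ≤ A.card := by exact_mod_cast (le_max_right _ _).trans hA
    exact (Nat.le_ceil _).trans h1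
  have hN₁B : N₁ ≤ B.card := by
    have h1 : (N₁ : ℝ) ≤ δ * A.card := by
      rw [div_le_iff₀ hδ] at hA2
      linarith
    have h2 : (N₁ : ℝ) ≤ B.card := h1.trans hcon.le
    exact_mod_cast h2
  have hE := h J hJ B (fun β hβ => (Finset.mem_filter.1 hβ).2) hN₁B
  have hBpos : (0:ℝ) < B.card := lt_trans (by positivity) hcon
  have h1 : (B.card : ℝ) ^ 2 * (B.card : ℝ) ^ 2 ≤ ((B + B).card : ℝ) * ((Finset.addEnergy B B : ℕ) : ℝ) := by
    exact_mod_cast Finset.le_card_add_mul_addEnergy B B
  have h2 : ((B + B).card : ℝ) ≤ K' * A.card := by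
    have h3 : (B + B).card ≤ (A + A).card :=
      Finset.card_le_card (Finset.add_subset_add (Finset.filter_subset _ _) (Finset.filter_subset _ _))
    have h4 : ((B + B).card : ℝ) ≤ (A + A).card := by exact_mod_cast h3
    refine h4.trans (hAA.trans ?_)
    exact mul_le_mul_of_nonneg_right (le_max_left _ _) (by positivity)
  have h3 : K' * A.card < K' * (B.card / δ) := by
    apply mul_lt_mul_of_pos_left _ (by positivity)
    rw [lt_div_iff₀ hδ]
    linarith
  have h4 : ((B + B).card : ℝ) * ((Finset.addEnergy B B : ℕ) : ℝ) ≤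
      K' * (B.card / δ) * ((Finset.addEnergy B B : ℕ) : ℝ) := by
    apply mul_le_mul_of_nonneg_right (h2.trans h3.le) (Nat.cast_nonneg _)
  have h5 : K' * (B.card / δ) * ((Finset.addEnergy B B : ℕ) : ℝ) <
      K' * (B.card / δ) * (δ / K' * (B.card : ℝ) ^ 3) := by
    apply mul_lt_mul_of_pos_left hE (by positivity)
  have h6 : K' * (B.card / δ) * (δ / K' * (B.card : ℝ) ^ 3) = (B.card : ℝ) ^ 2 * (B.card : ℝ) ^ 2 := by
    field_simp
  linarith

end Pool.Agent.Results.MP_cc0c1a_nt.AdditiveEnergy
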