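import Mathlib
import Pool.Agent.H429R2.Auto
import Pool.Agent.V1189.RT.Nine

/-!
# The rows of the base 6 automaton have the linear complexity of random words

Let `x` be a finite nonzero configuration. We consider `R` pairwise disjoint windows of `l` consecutive
cells each in one row `F ^ n x`. Their joint order is the least `m` such that the `R` words `s` in the
windows satisfy a common nontrivial relation

  `a_0 s_i + a_1 s_(i+1) + … + a_m s_(i+m) = 0`   (`1 ≤ i ≤ l - m`),   `a_0, …, a_m ∈ ℚ` not all `0`.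

By counting equations, it is at most `R l / (R + 1) + 1`. We prove: for every `R ≥ 1` and `ε > 0` there is
a constant `C` such that the joint order is at least `R l / (R + 1) - ε n - C` for all `n` and for all
windows of the row `F ^ n x` that begin to the right of the first nonzero cell (or at this cell) and
at distance at least `(R / (R + 1)) (log 6 / log 2) l` to the left of the cell `n`, near which the row ends.
-/

set_option autoImplicit false

namespace Pool.Agent.Results.MP_cc0c1a_nt.LinearComplexityOfRows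

open Finset
open Pool.Agent.H429R2.Auto (Conf F Rep rep_iter exists_rep)
open Pool.Agent.V1189.RT

/-- The words in the `R` windows `s k, …, s k + l - 1` of the row `y` satisfy a common nontrivial linear
relation of order `m`. -/
def HasRelation (y : ℤ → Fin 6) (R : ℕ) (s : Fin R → ℤ) (l m : ℕ) : Prop :=
  ∃ a : ℕ → ℚ, (∃ j ≤ m, a j ≠ 0) ∧ ∀ k : Fin R, ∀ i : ℕ, i + m < l →
    ∑ j ∈ range (m + 1), a j * (((y (s k + (i + j : ℕ)) : Fin 6) : ℕ) : ℚ) = 0

/-- the joint order of the windows -/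
noncomputable def jointOrder (y : ℤ → Fin 6) (R : ℕ) (s : Fin R → ℤ) (l : ℕ) : ℕ :=
  sInf {m | HasRelation y R s l m}

/-- the cells of a row as digits of `A0 9 ^ n` -/
theorem cell {x : Conf} {A0 k : ℕ} (hx : Rep x ((A0 : ℝ) / 6 ^ k)) (n u : ℕ) (i : ℤ)
    (hi : i + u = n + k) : ((F^[n] x i : Fin 6) : ℕ) = A0 * 9 ^ n / 6 ^ u % 6 := by
  have hβ : (0 : ℝ) ≤ (A0 : ℝ) / 6 ^ k := by positivity
  rw [rep_iter hβ hx n i]
  have e3 : (6 : ℝ) ^ i * ((3 / 2) ^ n * (A0 / 6 ^ k)) =
      ((A0 * 9 ^ n : ℕ) : ℝ) / ((6 ^ u : ℕ) : ℝ) := by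
    rw [show i = ((n + k : ℕ) : ℤ) - (u : ℕ) by push_cast; omega,
      zpow_sub₀ (by norm_num), zpow_natCast, zpow_natCast]
    push_cast
    have h9 : (9 : ℝ) ^ n = 6 ^ n * (3 / 2) ^ n := by rw [← mul_pow]; norm_num
    rw [h9, pow_add]
    field_simp
  rw [e3, Nat.floor_div_eq_div]

/-- **The linear complexity of the rows.** Let `x` be a finite nonzero configuration, `R ≥ 1` and `ε > 0`.
There is `C` such that for all `n` and all `R` pairwise disjoint windows of `l` cells of the row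
`F ^ n x`, each of which begins at or to the right of a nonzero cell and at least
`(R / (R + 1)) (log 6 / log 2) l` cells to the left of the cell `n`, the joint order is between
`R l / (R + 1) - ε n - C` and `R l / (R + 1) + 1`. -/
theorem result (x : ℤ → Fin 6) (hfin : {i | x i ≠ 0}.Finite) (hx : ∃ i, x i ≠ 0)
    (R : ℕ) (hR : 1 ≤ R) (ε : ℝ) (hε : 0 < ε) :
    ∃ C : ℝ, ∀ n l : ℕ, ∀ s : Fin R → ℤ, (∀ j k, j ≠ k → s j + l ≤ s k ∨ s k + l ≤ s j) →
      (∀ k, ∃ i ≤ s k, F^[n] x i ≠ 0) →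
      (∀ k, (s k : ℝ) + (R : ℝ) / (R + 1) * (Real.log 6 / Real.log 2) * l ≤ n) →
      (R : ℝ) / (R + 1) * l - ε * n - C ≤ jointOrder (F^[n] x) R s l ∧
      (jointOrder (F^[n] x) R s l : ℝ) ≤ (R : ℝ) / (R + 1) * l + 1 := by
  obtain ⟨A0, k0, hrep, hA0, -⟩ := exists_rep (x := x) hfin
  have hA0 : 0 < A0 := hA0 (by
    rintro rfl
    obtain ⟨i, hi⟩ := hx
    exact hi rfl)
  obtain ⟨L, hL⟩ : ∃ L : ℝ, L = Real.log 6 := ⟨_, rfl⟩
  have hL0 : 0 < L := by rw [hL]; exact Real.log_pos (by norm_num)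
  obtain ⟨L2, hL2⟩ : ∃ L2 : ℝ, L2 = Real.log 2 := ⟨_, rfl⟩
  have hL20 : 0 < L2 := by rw [hL2]; exact Real.log_pos (by norm_num)
  have hLL2 : 2 * L2 ≤ L := by
    rw [hL, hL2, ← Real.log_rpow (by norm_num)]
    exact Real.log_le_log (by positivity) (by norm_num)
  have hRR : (1 : ℝ) ≤ R := by exact_mod_cast hR
  obtain ⟨C1, hC10, hC1⟩ := Joint.ninePowers A0 R k0 hA0 hR (ε / 2 * ((R + 1) * L)) (by positivity)
  have hl9 : 0 < Real.log 9 := Real.log_pos (by norm_num)
  have hAR : (1 : ℝ) ≤ A0 := by exact_mod_cast hA0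
  have hlA : 0 ≤ Real.log A0 := Real.log_nonneg hAR
  obtain ⟨κ, hκ⟩ : ∃ κ : ℝ, κ = ε / 2 * L / Real.log 9 := ⟨_, rfl⟩
  have hκ0 : 0 < κ := by rw [hκ]; positivity
  obtain ⟨K, hK0, hK⟩ := Pool.Agent.Results.MP_a49cf6_nt.DigitRecurrences.F_linear 17 κ
    (by norm_num) hκ0
  refine ⟨C1 / ((R + 1) * L) + K + κ * (1 + Real.log A0 / L), fun n l s hdis hleft hright => ?_⟩
  obtain ⟨X, hX⟩ : ∃ X : ℕ, X = A0 * 9 ^ n := ⟨_, rfl⟩
  have hX1 : 1 ≤ X := by rw [hX]; exact Nat.mul_pos hA0 (by positivity)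
  -- the windows as windows of digits
  have hsn : ∀ k, s k ≤ n := by
    intro k
    have h1 := hright k
    have h2 : 0 ≤ (R : ℝ) / (R + 1) * (Real.log 6 / Real.log 2) * l := by
      rw [← hL, ← hL2]; positivity
    have h3 : (s k : ℝ) ≤ n := by linarith
    exact_mod_cast h3
  obtain ⟨W, hW⟩ : ∃ W : Fin R → ℕ, ∀ k, (W k : ℤ) = n + k0 - s k + 1 :=
    ⟨fun k => (n + k0 - s k + 1).toNat, fun k => by
      have := hsn k
      rw [Int.toNat_of_nonneg (by omega)]⟩
  have hWR : ∀ k, (W k : ℝ) = n + k0 - s k + 1 := fun k => by exact_mod_cast hW k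
  have hlog : ∀ k, (R : ℝ) / (R + 1) * l * L ≤ (W k + k0) * L2 := by
    intro k
    have h1 := hright k
    rw [← hL, ← hL2] at h1
    have h2 := hWR k
    have h3 : (R : ℝ) / (R + 1) * (L / L2) * l ≤ W k + k0 := by
      have : (0 : ℝ) ≤ k0 := Nat.cast_nonneg _
      linarith
    have h4 := mul_le_mul_of_nonneg_right h3 hL20.le
    have h5 : (R : ℝ) / (R + 1) * (L / L2) * l * L2 = (R : ℝ) / (R + 1) * l * L := by
      field_simp
    linarith
  have hlW : ∀ k, l ≤ W k := by
    intro k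
    have h1 := hright k
    rw [← hL, ← hL2] at h1
    have h2 := hWR k
    have h3 : (l : ℝ) ≤ (R : ℝ) / (R + 1) * (L / L2) * l := by
      refine le_mul_of_one_le_left (Nat.cast_nonneg _) ?_
      rw [div_mul_div_comm, le_div_iff₀ (by positivity)]
      nlinarith
    have h4 : (0 : ℝ) ≤ k0 := Nat.cast_nonneg _
    have h5 : (l : ℝ) ≤ W k := by linarith
    exact_mod_cast h5
  have hcell : ∀ k, ∀ i : ℕ, i + 1 ≤ W k → (((F^[n] x (s k + i) : Fin 6) : ℕ)) =
      Joint.digit 6 X (W k - (i + 1)) := by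
    intro k i hi
    rw [Joint.digit, hX]
    apply cell hrep
    have h1 := hW k
    rw [Nat.cast_sub hi, h1]
    push_cast
    ring
  have hWin : Joint.IsWindows 6 X R W l := by
    refine ⟨fun k => ⟨hlW k, ?_⟩, fun j k hjk => ?_⟩
    · obtain ⟨i, hi1, hi2⟩ := hleft k
      obtain ⟨u, hu⟩ : ∃ u : ℕ, (u : ℤ) = n + k0 - i := ⟨(n + k0 - i).toNat, by
        have := hsn k
        rw [Int.toNat_of_nonneg (by omega)]⟩
      have h1 := cell hrep n u i (by omega)
      have h2 : 6 ^ u ≤ X := by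
        by_contra hcon
        rw [← hX, Nat.div_eq_of_lt (by omega), Nat.zero_mod] at h1
        exact hi2 (Fin.ext h1)
      have h3 : u ≤ Nat.log 6 X := Nat.le_log_of_pow_le (by norm_num) h2
      have h4 := hW k
      omega
    · have h1 := hW j
      have h2 := hW k
      rcases hdis j k hjk with h | h
      · right; omega
      · left; omega
  have hiff : ∀ m, HasRelation (F^[n] x) R s l m ↔ Joint.HasRelation 6 X R W l m := by
    intro m
    constructor
    · rintro ⟨a, ha, h⟩
      refine ⟨a, ha, fun k i hi1 hi2 => ?_⟩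
      have h1 := h k (i - 1) (by omega)
      refine Eq.trans (Finset.sum_congr rfl fun j hj => ?_) h1
      rw [mem_range] at hj
      have h2 := hlW k
      have h3 := hcell k (i - 1 + j) (by omega)
      rw [show i - 1 + j + 1 = i + j by omega] at h3
      rw [← h3]
    · rintro ⟨a, ha, h⟩
      refine ⟨a, ha, fun k i hi => ?_⟩
      have h1 := h k (i + 1) (by omega) (by omega)
      refine Eq.trans (Finset.sum_congr rfl fun j hj => ?_) h1
      rw [mem_range] at hj
      have h2 := hlW k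
      rw [hcell k (i + j) (by omega), show i + j + 1 = i + 1 + j by omega]
  have hjo : jointOrder (F^[n] x) R s l = Joint.jointOrder 6 X R W l := by
    unfold jointOrder Joint.jointOrder
    congr 1
    ext m
    exact hiff m
  rw [hjo]
  refine ⟨?_, Joint.upper _ _ _ _ _⟩
  have hpow := Joint.pow_le_of_windows (by omega) (by norm_num) hWin
  have h1 := Joint.jointOf 6 X R hR W l hWin 1 κ K (ε / 2 * ((R + 1) * L) * n + C1) L hL0.le
    zero_le_one hκ0.le hK (fun l' m' c hl' hrec => by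
      rw [hX] at hpow hrec
      have h2 := hC1 n W l' m' c (fun k => hl'.trans (hlW k)) hpow (fun i j hij => by
        rcases hWin.disjoint i j hij with h | h
        · left; omega
        · right; omega) (fun k => by
          rw [← hL, ← hL2]
          refine le_trans ?_ (hlog k)
          have h3 : (l' : ℝ) ≤ l := by exact_mod_cast hl'
          gcongr) hrec
      rw [← hL] at h2
      linarith)
  obtain ⟨m, hm⟩ : ∃ m : ℝ, m = Joint.jointOrder 6 X R W l := ⟨_, rfl⟩
  rw [← hm] at h1 ⊢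
  have hlL : (l : ℝ) * L ≤ L + Real.log A0 + n * Real.log 9 := by
    have h2 : (6 : ℝ) ^ W ⟨0, hR⟩ ≤ 6 * (A0 * 9 ^ n) := by
      have h3 := hpow ⟨0, hR⟩
      rw [hX] at h3
      exact_mod_cast h3
    have h3 := Real.log_le_log (by positivity) h2
    rw [Real.log_pow, Real.log_mul (by norm_num) (by positivity),
      Real.log_mul (by positivity) (by positivity), Real.log_pow, ← hL] at h3
    have h4 : (l : ℝ) ≤ W ⟨0, hR⟩ := by exact_mod_cast hlW ⟨0, hR⟩
    have h5 := mul_le_mul_of_nonneg_right h4 hL0.le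
    linarith
  have hp3 : (0 : ℝ) < (R + 1) * L := by positivity
  rw [← mul_le_mul_iff_right₀ hp3]
  have h3 : ((R : ℝ) + 1) * L * ((R : ℝ) / (R + 1) * l - ε * n -
      (C1 / ((R + 1) * L) + K + κ * (1 + Real.log A0 / L))) =
      R * l * L - ε * ((R + 1) * L) * n - C1 - (R + 1) * K * L -
        (R + 1) * κ * (L + Real.log A0) := by
    field_simp
    ring
  rw [h3]
  have h4 : ((R : ℝ) + 1) * κ * (l * L) ≤ (R + 1) * κ * (L + Real.log A0 + n * Real.log 9) :=
    mul_le_mul_of_nonneg_left hlL (by positivity)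
  have h5 : ((R : ℝ) + 1) * κ * (L + Real.log A0 + n * Real.log 9) =
      (R + 1) * κ * (L + Real.log A0) + ε / 2 * ((R + 1) * L) * n := by
    rw [mul_add, hκ]
    field_simp
  linarith

end Pool.Agent.Results.MP_cc0c1a_nt.LinearComplexityOfRows
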