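import Pool.Agent.Results.MP_cc0c1a_nt.AlmostAllPositions
import Pool.Agent.V1172.PW.Eng

/-!
# Every word occurs at every position of shrinking residue classes of positions

Let `p` be a prime. For all `p`-adic integers `α` outside a countable union of sets of Hausdorff dimension less than one:
for every nonzero finite configuration `x` and every word `w` there is `σ < 1` such that for all large `T` the word `w`
occurs in the orbit of `x` starting at EVERY position `0 ≤ j ≤ T` with `|j - α|_p ≤ T ^ (-σ)`, that is, in the residue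
class of `α` modulo the least `p ^ f ≥ T ^ σ`, which contains about `T ^ (1 - σ)` positions `j ≤ T`.
-/

set_option autoImplicit false

namespace Pool.Agent.Results.MP_cc0c1a_nt.PositionsInResidueClasses

open Pool.Agent.H429R2.Auto Finset MeasureTheory

/-- The configuration `x` shows the word `w` starting at position `j`. -/
def Shows (x : Conf) (w : List (Fin 6)) (j : ℤ) : Prop :=
  ∀ (i : ℕ) (h : i < w.length), x (j + i) = w[i]

/-- the positions `j ≥ 0` at which no `F^n(x)`, `n ≥ 0`, shows `w` -/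
def Missed (x : Conf) (w : List (Fin 6)) : Set ℕ := {j | ∀ n : ℕ, ¬ Shows (F^[n] x) w (j : ℤ)}

open Classical in
lemma count (x : Conf) (hx : IsFin x) (hx0 : x ≠ 0) (w : List (Fin 6)) :
    ∃ δ : ℝ, 0 < δ ∧ δ < 1 ∧ ∃ C : ℝ, 0 ≤ C ∧ ∀ X : ℕ, 1 ≤ X →
      (((Ioc 0 X).filter (fun t => t ∈ Missed x w)).card : ℝ) ≤ C * (X : ℝ) ^ (1 - δ) := by
  obtain ⟨-, δ, hδ, C, hC⟩ := AlmostAllPositions.result x hx hx0 w
  have hm0 : 0 < min δ (1 / 2) := lt_min hδ (by norm_num)
  refine ⟨min δ (1 / 2), hm0, lt_of_le_of_lt (min_le_right _ _) (by norm_num), |C| * 2, by positivity,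
    fun X hX => ?_⟩
  have hX1 : (1 : ℝ) ≤ X := by exact_mod_cast hX
  have hfin : (AlmostAllPositions.missed x w ∩ Set.Icc 0 (X : ℤ)).Finite :=
    (Set.finite_Icc (0 : ℤ) (X : ℤ)).subset Set.inter_subset_right
  have h1 : (((Ioc 0 X).filter (fun t => t ∈ Missed x w)).card) ≤
      (AlmostAllPositions.missed x w ∩ Set.Icc 0 (X : ℤ)).ncard := by
    have h2 : (((Ioc 0 X).filter (fun t => t ∈ Missed x w)).image (fun j : ℕ => (j : ℤ))).card =
        ((Ioc 0 X).filter (fun t => t ∈ Missed x w)).card :=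
      Finset.card_image_of_injective _ (fun a b hab => by exact_mod_cast hab)
    rw [← h2, ← Set.ncard_coe_finset]
    apply Set.ncard_le_ncard _ hfin
    intro j hj
    rw [mem_coe, mem_image] at hj
    obtain ⟨i, hi, rfl⟩ := hj
    rw [mem_filter, mem_Ioc] at hi
    refine ⟨hi.2, ?_, ?_⟩
    · exact_mod_cast Nat.zero_le i
    · exact_mod_cast hi.1.2
  have h2 : (0 : ℝ) < X + 1 := by positivity
  calc (((Ioc 0 X).filter (fun t => t ∈ Missed x w)).card : ℝ)
      ≤ ((AlmostAllPositions.missed x w ∩ Set.Icc 0 (X : ℤ)).ncard : ℝ) := by exact_mod_cast h1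
    _ ≤ C * ((X : ℝ) + 1) ^ (1 - δ) := hC X
    _ ≤ |C| * ((X : ℝ) + 1) ^ (1 - δ) := mul_le_mul_of_nonneg_right (le_abs_self C) (by positivity)
    _ ≤ |C| * ((X : ℝ) + 1) ^ (1 - min δ (1 / 2)) := by
        apply mul_le_mul_of_nonneg_left _ (abs_nonneg C)
        apply Real.rpow_le_rpow_of_exponent_le (by linarith)
        have := min_le_left δ (1 / 2)
        linarith
    _ ≤ |C| * (2 * (X : ℝ) ^ (1 - min δ (1 / 2))) := by
        apply mul_le_mul_of_nonneg_left _ (abs_nonneg C)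
        have hm1 : 0 ≤ 1 - min δ (1 / 2) := by
          have := min_le_right δ (1 / 2)
          linarith
        calc ((X : ℝ) + 1) ^ (1 - min δ (1 / 2)) ≤ (2 * (X : ℝ)) ^ (1 - min δ (1 / 2)) :=
              Real.rpow_le_rpow h2.le (by linarith) hm1
          _ = 2 ^ (1 - min δ (1 / 2)) * (X : ℝ) ^ (1 - min δ (1 / 2)) := Real.mul_rpow (by norm_num) (by linarith)
          _ ≤ 2 * (X : ℝ) ^ (1 - min δ (1 / 2)) := by
              apply mul_le_mul_of_nonneg_right _ (by positivity)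
              calc (2 : ℝ) ^ (1 - min δ (1 / 2)) ≤ 2 ^ (1 : ℝ) :=
                    Real.rpow_le_rpow_of_exponent_le (by norm_num) (by linarith)
                _ = 2 := Real.rpow_one 2
    _ = |C| * 2 * (X : ℝ) ^ (1 - min δ (1 / 2)) := by ring

/-- the finite configurations -/
abbrev FC : Type := {x : Conf // IsFin x}

lemma countable_FC : Countable FC := by
  have : Function.Injective (fun x : FC => (Finsupp.ofSupportFinite x.1 (by
      have := x.2
      unfold IsFin at this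
      exact this) : ℤ →₀ Fin 6)) := by
    intro x y hxy
    have h := congrArg (fun g : ℤ →₀ Fin 6 => (g : ℤ → Fin 6)) hxy
    exact Subtype.ext h
  exact this.countable

/-- **Theorem.** Let `p` be a prime. There are sets `E_k ⊆ ℤ_p`, `k ∈ ℕ`, of Hausdorff dimension less than one, such that
for each `p`-adic integer `α` outside of all `E_k`, each nonzero finite configuration `x` and each word `w` there is
`0 < σ < 1` such that for all large `T`, for EVERY position `0 ≤ j ≤ T` with `|j - α|_p ≤ T ^ (-σ)`, some `F^m(x)` shows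
`w` starting at `j`. -/
theorem result (p : ℕ) [Fact p.Prime] :
    ∃ E : ℕ → Set ℤ_[p], (∀ k, dimH (E k) < 1) ∧
      ∀ α : ℤ_[p], (∀ k, α ∉ E k) → ∀ x : Conf, IsFin x → x ≠ 0 → ∀ w : List (Fin 6),
        ∃ σ : ℝ, 0 < σ ∧ σ < 1 ∧ ∃ T₀ : ℝ, ∀ T : ℝ, T₀ ≤ T → ∀ j : ℕ, (j : ℝ) ≤ T →
          ‖(j : ℤ_[p]) - α‖ ≤ T ^ (-σ) → ∃ m : ℕ, Shows (F^[m] x) w (j : ℤ) := by
  classical
  have hcF : Countable FC := countable_FC
  have key : ∀ z : FC × List (Fin 6), ∃ E : Set ℤ_[p], dimH E < 1 ∧ ∀ α ∉ E, z.1.1 ≠ 0 →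
      ∃ σ : ℝ, 0 < σ ∧ σ < 1 ∧ ∃ T₀ : ℝ, ∀ T : ℝ, T₀ ≤ T → ∀ j : ℕ, (j : ℝ) ≤ T →
          ‖(j : ℤ_[p]) - α‖ ≤ T ^ (-σ) → ∃ m : ℕ, Shows (F^[m] z.1.1) z.2 (j : ℤ) := by
    rintro ⟨⟨x, hx⟩, w⟩
    by_cases hx0 : x = 0
    · exact ⟨∅, by simp, fun α _ h => absurd hx0 h⟩
    obtain ⟨δ, hδ, hδ1, C, hC0, hC⟩ := count x hx hx0 w
    obtain ⟨E, h1, h2⟩ := Pool.Agent.V1172.PW.nats p (ι := Unit) (fun _ => Missed x w)
      (s := 1 - δ) (by linarith) (fun _ => by
        refine ⟨C + 1, fun X hX => ?_⟩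
        have hX0 : 0 ≤ X := by linarith
        have hfl : 1 ≤ ⌊X⌋₊ := Nat.le_floor (by exact_mod_cast hX)
        have hsub : {t : ℕ | t ∈ Missed x w ∧ (t : ℝ) ≤ X} ⊆
            ((insert 0 ((Ioc 0 ⌊X⌋₊).filter (fun t => t ∈ Missed x w)) : Finset ℕ) : Set ℕ) := by
          rintro t ⟨ht1, ht2⟩
          rw [mem_coe, mem_insert, mem_filter, mem_Ioc]
          rcases Nat.eq_zero_or_pos t with h0 | h0
          · exact Or.inl h0
          · exact Or.inr ⟨⟨h0, Nat.le_floor ht2⟩, ht1⟩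
        have h3 := Set.ncard_le_ncard hsub (Finset.finite_toSet _)
        rw [Set.ncard_coe_finset] at h3
        have h4 := h3.trans (card_insert_le _ _)
        have h5 : (1 : ℝ) ≤ X ^ (1 - δ) := Real.one_le_rpow hX (by linarith)
        calc ({t : ℕ | t ∈ Missed x w ∧ (t : ℝ) ≤ X}.ncard : ℝ)
            ≤ (((Ioc 0 ⌊X⌋₊).filter (fun t => t ∈ Missed x w)).card : ℝ) + 1 := by exact_mod_cast h4
          _ ≤ C * ((⌊X⌋₊ : ℕ) : ℝ) ^ (1 - δ) + 1 := by
              have := hC ⌊X⌋₊ hfl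
              linarith
          _ ≤ C * X ^ (1 - δ) + X ^ (1 - δ) := by
              refine add_le_add (mul_le_mul_of_nonneg_left ?_ hC0) h5
              exact Real.rpow_le_rpow (Nat.cast_nonneg _) (Nat.floor_le hX0) (by linarith)
          _ = (C + 1) * X ^ (1 - δ) := by ring) (σ := 1 - δ / 2) (by linarith)
    refine ⟨E, lt_of_le_of_lt h1 ?_, fun α hαE _ => ?_⟩
    · rw [ENNReal.ofReal_lt_one, div_lt_one (by linarith)]
      linarith
    · obtain ⟨T₀, hT⟩ := h2 α hαE ()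
      refine ⟨1 - δ / 2, by linarith, by linarith, T₀, fun T hT1 j hj hw => ?_⟩
      have h4 := hT T hT1 j hj hw
      by_contra hcon
      push Not at hcon
      exact h4 hcon
  choose G hG1 hG2 using key
  have hne : Nonempty (FC × List (Fin 6)) := ⟨(⟨0, by
    unfold IsFin
    simp⟩, [])⟩
  obtain ⟨f, hf⟩ := exists_surjective_nat (FC × List (Fin 6))
  refine ⟨fun k => G (f k), fun k => hG1 _, fun α hαE x hx hx0 w => ?_⟩
  obtain ⟨k, hk⟩ := hf (⟨x, hx⟩, w)
  have h1 := hαE k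
  simp only [hk] at h1
  exact hG2 (⟨x, hx⟩, w) α h1 hx0

end Pool.Agent.Results.MP_cc0c1a_nt.PositionsInResidueClasses
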