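import Pool.Agent.Results.MP_cc0c1a_nt.WindowsOfPositions
import Pool.Agent.V11001.KM.Near
import Pool.Agent.V11001.KM.Nat
import Pool.Agent.V11001.KM.NatSet

/-!
# Every word occurs at every position near the powers of almost every real number

Let `ν n / log n → ∞`, for example `ν n = n` or `ν n = n !`. For almost every real number `b > 1`: for every nonzero finite
configuration `x` and every word `w` there is `θ > 0` such that for all but finitely many `n` the word `w` occurs in the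
orbit of `x` starting at EVERY position `j` with `|j - b ^ (ν n)| ≤ b ^ (θ ν n)`.
-/

set_option autoImplicit false

namespace Pool.Agent.Results.MP_cc0c1a_nt.PositionsNearPowers

open Pool.Agent.H429R2.Auto Finset MeasureTheory Filter Topology
open Pool.Agent.V11001.KM
open WindowsOfPositions (Shows Missed count FC)

/-- **Theorem.** Let `ν n / log n → ∞` and `U` a countable set of real numbers. There are sets `E_k`, `k ∈ ℕ`, of Hausdorff
dimension less than one, whose union is a null set, such that for each `b > 1` outside of all `E_k`, each positive `β` in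
`U`, each nonzero finite configuration `x` and each word `w` there is `θ > 0` such that for all but finitely many `n`, for
EVERY position `j` with `|j - β b ^ (ν n)| ≤ b ^ (θ ν n)`, some `F^m(x)` shows `w` starting at `j`. -/
theorem result : ∀ ν : ℕ → ℝ, Fast ν → ∀ U : Set ℝ, U.Countable →
    ∃ E : ℕ → Set ℝ, (∀ k, dimH (E k) < 1) ∧ volume (⋃ k, E k) = 0 ∧
      ∀ b : ℝ, 1 < b → (∀ k, b ∉ E k) → ∀ β ∈ U, 0 < β → ∀ x : Conf, IsFin x → x ≠ 0 → ∀ w : List (Fin 6),
        ∃ θ : ℝ, 0 < θ ∧ ∃ n₀ : ℕ, ∀ n : ℕ, n₀ ≤ n → ∀ j : ℤ, |(j : ℝ) - β * b ^ ν n| ≤ b ^ (θ * ν n) →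
          ∃ m : ℕ, Shows (F^[m] x) w j := by
  classical
  intro ν hν U hU
  have hcU : Countable U := hU.to_subtype
  have key : ∀ z : {β : U // 0 < (β : ℝ)} × FC × List (Fin 6), ∃ E : Set ℝ, dimH E < 1 ∧
      ∀ b : ℝ, 1 < b → b ∉ E → z.2.1.1 ≠ 0 →
      ∃ θ : ℝ, 0 < θ ∧ ∃ n₀ : ℕ, ∀ n : ℕ, n₀ ≤ n → ∀ j : ℤ,
        |(j : ℝ) - ((z.1 : U) : ℝ) * b ^ ν n| ≤ b ^ (θ * ν n) → ∃ m : ℕ, Shows (F^[m] z.2.1.1) z.2.2 j := by
    rintro ⟨⟨β, hβ⟩, ⟨x, hx⟩, w⟩
    by_cases hx0 : x = 0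
    · exact ⟨∅, by simp, fun b _ _ h => absurd hx0 h⟩
    obtain ⟨δ, hδ, hδ1, C, hC0, hC⟩ := count x hx hx0 w
    have hδ2 : δ / 2 < 1 := by linarith
    obtain ⟨E, h1, h2⟩ := powers (Missed x w) (fun m : ℕ => (m : ℝ)) hν hβ (s := 1 - δ) (θ := δ / 2)
      (by linarith) hδ2 (fun ε hε => count_of_nat (Missed x w) (by linarith) hε
        ⟨C, fun X hX => (hC X hX).trans (mul_le_mul_of_nonneg_left
          (Real.rpow_le_rpow_of_exponent_le (by exact_mod_cast hX) (by linarith)) hC0)⟩)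
    refine ⟨E, lt_of_le_of_lt h1 ?_, fun b hb hbE _ => ?_⟩
    · rw [ENNReal.ofReal_lt_one, div_lt_one (by linarith)]
      linarith
    · obtain ⟨n₀, hn⟩ := h2 b hb hbE
      obtain ⟨n₁, hn1⟩ := large_of_near hν hβ hδ2 hb 0
      refine ⟨δ / 2, by positivity, max n₀ n₁, fun n hnn j hj => ?_⟩
      have hj0 : 0 ≤ j := by exact_mod_cast hn1 n (le_trans (le_max_right _ _) hnn) j hj
      lift j to ℕ using hj0
      have h4 : (j : ℕ) ∉ Missed x w := fun h5 =>
        absurd (hn n (le_trans (le_max_left _ _) hnn) j h5) (not_lt.2 (by exact_mod_cast hj))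
      unfold Missed at h4
      rw [Set.mem_setOf_eq] at h4
      push Not at h4
      exact h4
  choose G hG1 hG2 using key
  rcases isEmpty_or_nonempty {β : U // 0 < (β : ℝ)} with hem | hne
  · exact ⟨fun _ => ∅, by simp, by simp, fun b _ _ β hβ hβ0 => (hem.false ⟨⟨β, hβ⟩, hβ0⟩).elim⟩
  haveI : Nonempty ({β : U // 0 < (β : ℝ)} × FC × List (Fin 6)) := ⟨(hne.some, ⟨0, by
    unfold IsFin
    simp⟩, [])⟩
  obtain ⟨f, hf⟩ := exists_surjective_nat ({β : U // 0 < (β : ℝ)} × FC × List (Fin 6))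
  refine ⟨fun k => G (f k), fun k => hG1 _, ?_, fun b hb hbE β hβ hβ0 x hx hx0 w => ?_⟩
  · rw [measure_iUnion_null_iff]
    intro k
    rw [← hausdorffMeasure_real]
    have h1 := hausdorffMeasure_of_dimH_lt (s := G (f k)) (d := 1) (by
      rw [ENNReal.coe_one]
      exact hG1 _)
    rw [NNReal.coe_one] at h1
    exact h1
  · obtain ⟨k, hk⟩ := hf (⟨⟨β, hβ⟩, hβ0⟩, ⟨x, hx⟩, w)
    have h1 := hbE k
    simp only [hk] at h1
    exact hG2 (⟨⟨β, hβ⟩, hβ0⟩, ⟨x, hx⟩, w) b hb h1 hx0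

end Pool.Agent.Results.MP_cc0c1a_nt.PositionsNearPowers
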